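import Pool.Agent.KK.Defs

/-! Final form of the theorem: from lists to cyclic orderings. -/

set_option autoImplicit false

namespace Pool.Agent.KK.H74

open Pool.Agent.KK

theorem ham_cyc {V : Type} [Fintype V] [DecidableEq V] (H : Finset (Finset V)) (k n : ℕ)
    (hk : 1 ≤ k) (hkn : k ≤ n) (hV : Fintype.card V = n) (h : Ham H k) :
    ∃ σ : ZMod n ≃ V, ∀ i : ZMod n,
      (Finset.range k).image (fun j : ℕ => σ (i + (j : ZMod n))) ∈ H := by
  obtain ⟨l, hnd, hall, ht⟩ := h
  have hlen : l.length = n := by
    have h1 : l.toFinset = Finset.univ := by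
      ext v; simp [hall v]
    have h2 := List.toFinset_card_of_nodup hnd
    rw [h1, Finset.card_univ, hV] at h2
    exact h2.symm
  have hn : 0 < n := by omega
  have : NeZero n := ⟨by omega⟩
  have hval : ∀ i : ZMod n, i.val < l.length := fun i => by rw [hlen]; exact ZMod.val_lt i
  let f : ZMod n → V := fun i => l.get ⟨i.val, hval i⟩
  have hinj : Function.Injective f := by
    intro a b hab
    have h1 := (List.nodup_iff_injective_get.mp hnd) hab
    have h2 : a.val = b.val := by
      have := congrArg Fin.val h1
      simpa using this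
    exact ZMod.val_injective n h2
  have hcard : Fintype.card (ZMod n) = Fintype.card V := by rw [ZMod.card, hV]
  have hbij : Function.Bijective f := (Fintype.bijective_iff_injective_and_card f).mpr ⟨hinj, hcard⟩
  refine ⟨Equiv.ofBijective f hbij, ?_⟩
  intro i
  set L := l ++ l.take (k - 1) with hL
  have hLlen : L.length = n + (k - 1) := by
    rw [hL, List.length_append, List.length_take, hlen]
    omega
  have hget : ∀ j < k, ∀ (hj : i.val + j < L.length), L[i.val + j] = f (i + (j : ZMod n)) := by
    intro j hj hj2
    have hi := ZMod.val_lt i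
    have hjv : ((j : ZMod n)).val = j % n := ZMod.val_natCast n j
    have hadd : (i + (j : ZMod n)).val = (i.val + j) % n := by
      rw [ZMod.val_add, hjv, Nat.add_mod_mod]
    show L[i.val + j] = l.get ⟨(i + (j : ZMod n)).val, hval _⟩
    rw [List.get_eq_getElem]
    by_cases hc : i.val + j < n
    · have h1 : (i + (j : ZMod n)).val = i.val + j := by rw [hadd, Nat.mod_eq_of_lt hc]
      simp only [hL, h1]
      rw [List.getElem_append_left]
    · have h1 : (i + (j : ZMod n)).val = i.val + j - n := by
        rw [hadd, Nat.mod_eq_sub_mod (by omega), Nat.mod_eq_of_lt (by omega)]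
      simp only [hL, h1]
      rw [List.getElem_append_right (by omega)]
      rw [List.getElem_take]
      simp only [hlen]
  have hs : ((L.drop i.val).take k).toFinset ∈ H := by
    apply ht
    · exact (List.take_prefix _ _).isInfix.trans (List.drop_suffix _ _).isInfix
    · rw [List.length_take, List.length_drop, hLlen]
      have hi := ZMod.val_lt i
      omega
  have he : (Finset.range k).image (fun j : ℕ => (Equiv.ofBijective f hbij) (i + (j : ZMod n))) =
      ((L.drop i.val).take k).toFinset := by
    ext v
    simp only [Finset.mem_image, Finset.mem_range, Equiv.ofBijective_apply, List.mem_toFinset]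
    have hi := ZMod.val_lt i
    constructor
    · rintro ⟨j, hj, rfl⟩
      rw [← hget j hj (by rw [hLlen]; omega)]
      rw [List.mem_iff_getElem]
      refine ⟨j, ?_, ?_⟩
      · rw [List.length_take, List.length_drop, hLlen]; omega
      · rw [List.getElem_take, List.getElem_drop]
    · intro hv
      rw [List.mem_iff_getElem] at hv
      obtain ⟨j, hj, hv⟩ := hv
      rw [List.length_take, List.length_drop, hLlen] at hj
      refine ⟨j, by omega, ?_⟩
      rw [← hget j (by omega) (by rw [hLlen]; omega)]
      rw [List.getElem_take, List.getElem_drop] at hv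
      exact hv
  rw [he]
  exact hs

/-- The theorem in Mathlib terms. -/
theorem final (hM : Main) (k : ℕ) (hk : 3 ≤ k) : ∃ n₀ : ℕ, ∀ n : ℕ, n₀ ≤ n →
    ∀ (V : Type) [Fintype V] [DecidableEq V], Fintype.card V = n →
    ∀ E : Set (Finset V), (∀ e ∈ E, e.card = k) →
    (∀ S : Finset V, S.card = k - 1 → n ≤ 2 * {v : V | v ∉ S ∧ insert v S ∈ E}.ncard) →
    ∃ σ : ZMod n ≃ V, ∀ i : ZMod n,
      (Finset.range k).image (fun j : ℕ => σ (i + (j : ZMod n))) ∈ E := by
  obtain ⟨n₀, h⟩ := hM k hk
  refine ⟨max n₀ k, ?_⟩
  intro n hn V _ _ hV E hE hδ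
  classical
  let H : Finset (Finset V) := Finset.univ.filter (· ∈ E)
  have hmem : ∀ e, e ∈ H ↔ e ∈ E := fun e => by simp [H]
  have hU : Uni H k := fun e he => hE e ((hmem e).mp he)
  have hD : Dirac H k := by
    intro S hS
    rw [hV]
    have h1 := hδ S hS
    have h2 : {v : V | v ∉ S ∧ insert v S ∈ E}.ncard = (nb H S).card := by
      rw [← Set.ncard_coe_finset]
      apply congrArg
      ext v
      simp [nb, hmem]
    rw [h2] at h1
    exact h1
  have hh := h V H (by rw [hV]; exact le_trans (le_max_left _ _) hn) hU hD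
  obtain ⟨σ, hσ⟩ := ham_cyc H k n (by omega) (le_trans (le_max_right _ _) hn) hV hh
  exact ⟨σ, fun i => (hmem _).mp (hσ i)⟩

end Pool.Agent.KK.H74
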