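import Pool.Agent.Helper13_KK.Family
import Pool.Agent.KK.StmtsC

/-! Rows FAM, CKQ, ERD of squad KK from the counting library of helper13. -/

set_option autoImplicit false

namespace Pool.Agent.KK.H74

open Pool.Agent.KK Finset Function

/-- The core of the family lemma, for fixed `L` and `V`. -/
theorem family_core' {m L : ℕ} {V I : Type} [Fintype V] [Fintype I] (hm : 0 < m) (hL : 0 < L)
    (hV : 0 < Fintype.card V) (ξ : ℝ) (hξ : 0 < ξ) (D : I → Set (Fin m → V))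
    (hD : ∀ i, ξ * (Fintype.card V : ℝ) ^ m ≤ (D i).ncard)
    (h1 : (Fintype.card I : ℝ) * Real.exp (-(ξ * L / 4)) ≤ 1 / 2)
    (h2 : 64 * (m : ℝ) ^ 2 * L ≤ ξ * Fintype.card V) :
    ∃ F : Finset (Fin m → V), F.card ≤ L ∧ (∀ f ∈ F, ∃ i, f ∈ D i) ∧
      (∀ f ∈ F, ∀ g ∈ F, f ≠ g → ∀ a b, f a ≠ g b) ∧
      ∀ i, 3 * (ξ * L / 16) ≤ ({f | f ∈ F ∧ f ∈ D i}.ncard : ℝ) := by
  classical
  have hn0 : (0 : ℝ) < Fintype.card V := by exact_mod_cast hV
  have hL0 : (0 : ℝ) < L := by exact_mod_cast hL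
  have hm0 : (0 : ℝ) < m := by exact_mod_cast hm
  obtain ⟨T, hT⟩ : ∃ T : ℝ, T = (Fintype.card V : ℝ) ^ (L * m) := ⟨_, rfl⟩
  have hT0 : 0 < T := by rw [hT]; positivity
  -- bad events of Chernoff type
  obtain ⟨B1, hB1⟩ : ∃ B1 : I → Set (Fin L → Fin m → V),
      B1 = fun i => {ω | 4 * ({j | ω j ∈ D i}.ncard : ℝ) ≤ ξ * L} := ⟨_, rfl⟩
  have c1 : ∀ i, ((B1 i).ncard : ℝ) ≤ Real.exp (-(ξ * L / 4)) * T := by
    intro i
    have := chernoff (A := Fin m → V) L (D i) ξ (by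
      rw [Fintype.card_fun, Fintype.card_fin]
      push_cast
      exact hD i)
    rw [Fintype.card_fun, Fintype.card_fin] at this
    push_cast at this
    rw [hB1, hT, mul_comm L m, pow_mul]
    exact this
  -- bad event of Markov type
  obtain ⟨B2, hB2⟩ : ∃ B2 : Set (Fin L → Fin m → V),
      B2 = {ω | ξ * L / 16 < ((meets ω).ncard : ℝ)} := ⟨_, rfl⟩
  have c2 : (B2.ncard : ℝ) ≤ T / 4 := by
    have h3 : (B2.ncard : ℝ) * (ξ * L / 16) ≤ ∑ ω : Fin L → Fin m → V, ((meets ω).ncard : ℝ) := by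
      rw [← sum_ind B2, Finset.sum_mul]
      refine Finset.sum_le_sum fun ω _ => ?_
      by_cases h : ω ∈ B2
      · rw [if_pos h, one_mul]
        rw [hB2] at h
        exact le_of_lt h
      · rw [if_neg h, zero_mul]
        exact Nat.cast_nonneg _
    have h4 : (∑ ω : Fin L → Fin m → V, ((meets ω).ncard : ℝ)) ≤
        ((L : ℝ) * m) ^ 2 * (Fintype.card V : ℝ) ^ (L * m - 1) := by
      have := sum_meets (L := L) (m := m) (V := V)
      exact_mod_cast this
    have h5 : T = Fintype.card V * (Fintype.card V : ℝ) ^ (L * m - 1) := by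
      rw [hT, ← pow_succ', Nat.sub_add_cancel (Nat.mul_pos hL hm)]
    have h6 : 0 ≤ (Fintype.card V : ℝ) ^ (L * m - 1) := by positivity
    have h7 : ((L : ℝ) * m) ^ 2 * (Fintype.card V : ℝ) ^ (L * m - 1) ≤ T / 4 * (ξ * L / 16) := by
      rw [h5]
      have h8 := mul_le_mul_of_nonneg_right h2 (mul_nonneg hL0.le h6)
      nlinarith
    refine le_of_mul_le_mul_right (le_trans h3 (le_trans h4 h7)) (by positivity)
  -- a good sequence
  have c3 : ∃ ω : Fin L → Fin m → V, (∀ i, ω ∉ B1 i) ∧ ω ∉ B2 := by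
    by_contra hc
    push Not at hc
    have h3 : (Set.univ : Set (Fin L → Fin m → V)) ⊆ (⋃ i ∈ (univ : Finset I), B1 i) ∪ B2 := by
      intro ω _
      by_cases h : ∀ i, ω ∉ B1 i
      · right
        exact hc ω h
      · left
        push Not at h
        obtain ⟨i, hi⟩ := h
        exact Set.mem_biUnion (Finset.mem_coe.2 (mem_univ i)) hi
    have h4 := le_trans (Set.ncard_le_ncard h3 (Set.toFinite _)) (Set.ncard_union_le _ _)
    have h5 := le_trans h4 (Nat.add_le_add_right (ncard_union_bound _ _) _)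
    have h6 : (Set.univ : Set (Fin L → Fin m → V)).ncard = Fintype.card V ^ (L * m) := by
      rw [Set.ncard_univ, Nat.card_eq_fintype_card, Fintype.card_fun, Fintype.card_fun,
        Fintype.card_fin, Fintype.card_fin, ← pow_mul, mul_comm]
    rw [h6] at h5
    have h7 : T ≤ (∑ i, ((B1 i).ncard : ℝ)) + B2.ncard := by
      rw [hT]
      exact_mod_cast h5
    have h8 : ∑ i, ((B1 i).ncard : ℝ) ≤ Fintype.card I * (Real.exp (-(ξ * L / 4)) * T) := by
      refine le_trans (Finset.sum_le_card_nsmul _ _ _ fun i _ => c1 i) ?_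
      rw [card_univ, nsmul_eq_mul]
    have h9 := mul_le_mul_of_nonneg_right h1 hT0.le
    nlinarith
  obtain ⟨ω, hω1, hω2⟩ := c3
  -- the good indices
  obtain ⟨K, hK⟩ : ∃ K : Finset (Fin L),
      K = univ.filter fun a => (∃ i, ω a ∈ D i) ∧ ∀ b, (a, b) ∉ meets ω := ⟨_, rfl⟩
  have hinj : ∀ a ∈ K, ∀ b, a ≠ b → ∀ i j, ω a i ≠ ω b j := by
    intro a ha b hab i j h
    rw [hK] at ha
    exact (Finset.mem_filter.1 ha).2.2 b ⟨hab, i, j, h⟩
  refine ⟨K.image ω, le_trans Finset.card_image_le ?_, ?_, ?_, ?_⟩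
  · refine le_trans (Finset.card_le_univ K) ?_
    rw [Fintype.card_fin]
  · intro f hf
    obtain ⟨a, ha, rfl⟩ := Finset.mem_image.1 hf
    rw [hK] at ha
    exact (Finset.mem_filter.1 ha).2.1
  · intro f hf g hg hfg i j
    obtain ⟨a, ha, rfl⟩ := Finset.mem_image.1 hf
    obtain ⟨b, hb, rfl⟩ := Finset.mem_image.1 hg
    exact hinj a ha b (fun h => hfg (by rw [h])) i j
  · intro i
    have h3 : {j | ω j ∈ D i} ⊆ {j | j ∈ K ∧ ω j ∈ D i} ∪ {j | ∃ b, (j, b) ∈ meets ω} := by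
      intro j hj
      by_cases h : ∃ b, (j, b) ∈ meets ω
      · right
        exact h
      · left
        push Not at h
        refine ⟨?_, hj⟩
        rw [hK]
        exact Finset.mem_filter.2 ⟨mem_univ _, ⟨i, hj⟩, h⟩
    have h4 := le_trans (Set.ncard_le_ncard h3 (Set.toFinite _)) (Set.ncard_union_le _ _)
    have h5 : {j | ∃ b, (j, b) ∈ meets ω}.ncard ≤ (meets ω).ncard := by
      have h6 : {j | ∃ b, (j, b) ∈ meets ω} = Prod.fst '' meets ω := by
        ext j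
        constructor
        · rintro ⟨b, hb⟩
          exact ⟨(j, b), hb, rfl⟩
        · rintro ⟨⟨j', b⟩, hb, rfl⟩
          exact ⟨b, hb⟩
      rw [h6]
      exact Set.ncard_image_le (Set.toFinite _)
    have h7 : {j | j ∈ K ∧ ω j ∈ D i}.ncard ≤ {f | f ∈ K.image ω ∧ f ∈ D i}.ncard := by
      refine Set.ncard_le_ncard_of_injOn ω ?_ ?_ (Set.toFinite _)
      · rintro j ⟨hj1, hj2⟩
        exact ⟨Finset.mem_image_of_mem _ hj1, hj2⟩
      · rintro a ⟨ha, _⟩ b ⟨hb, _⟩ h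
        by_contra hab
        exact hinj a ha b hab ⟨0, hm⟩ ⟨0, hm⟩ (congrFun h ⟨0, hm⟩)
    have h8 : ξ * L < 4 * ({j | ω j ∈ D i}.ncard : ℝ) := by
      have := hω1 i
      rw [hB1] at this
      exact not_le.1 this
    have h9 : ((meets ω).ncard : ℝ) ≤ ξ * L / 16 := by
      rw [hB2] at hω2
      exact not_lt.1 hω2
    have h10 : ({j | ω j ∈ D i}.ncard : ℝ) ≤
        {f | f ∈ K.image ω ∧ f ∈ D i}.ncard + (meets ω).ncard := by
      exact_mod_cast le_trans h4 (Nat.add_le_add h7 h5)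
    linarith


theorem fam : FamStmt := by
  intro M e ξ hM hξ
  have hM0 : (0 : ℝ) < M := by exact_mod_cast hM
  refine ⟨3 * ξ / 4 / (64 * (M : ℝ) ^ 2), by positivity, ?_⟩
  intro γ hγ hγ0
  rw [le_div_iff₀ (by positivity)] at hγ0
  obtain ⟨n₁, hn₁⟩ := pow_mul_exp_small e (3 * ξ / 4 * γ / 8) (by positivity)
  obtain ⟨n₂, hn₂⟩ := exists_nat_ge (9 / γ)
  obtain ⟨n₃, hn₃⟩ := exists_nat_ge (4 * (M : ℝ) ^ 2 / ξ)
  refine ⟨max n₁ (max n₂ (max n₃ 1)), ?_⟩
  intro V _ _ hV 𝒟 h𝒟 hD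
  classical
  obtain ⟨n, hn⟩ : ∃ n : ℕ, n = Fintype.card V := ⟨_, rfl⟩
  rw [← hn] at hV h𝒟 hD ⊢
  have h1 : n₁ ≤ n := le_trans (le_max_left _ _) hV
  have h2 : n₂ ≤ n := le_trans (le_trans (le_max_left _ _) (le_max_right _ _)) hV
  have h3 : n₃ ≤ n := le_trans (le_trans (le_trans (le_max_left _ _) (le_max_right _ _))
    (le_max_right _ _)) hV
  have h4 : 1 ≤ n := le_trans (le_trans (le_trans (le_max_right _ _) (le_max_right _ _))
    (le_max_right _ _)) hV
  have hn0 : (0 : ℝ) < n := by exact_mod_cast h4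
  have h2' : 9 ≤ γ * n := by
    have : 9 / γ ≤ n := le_trans hn₂ (by exact_mod_cast h2)
    rw [div_le_iff₀ hγ] at this
    linarith
  have h3' : 4 * (M : ℝ) ^ 2 ≤ ξ * n := by
    have : 4 * (M : ℝ) ^ 2 / ξ ≤ n := le_trans hn₃ (by exact_mod_cast h3)
    rw [div_le_iff₀ hξ] at this
    linarith
  obtain ⟨L, hL⟩ : ∃ L : ℕ, L = ⌊γ * n⌋₊ := ⟨_, rfl⟩
  have hL1 : (L : ℝ) ≤ γ * n := by
    rw [hL]
    exact Nat.floor_le (by positivity)
  have hL2 : γ * n < L + 1 := by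
    rw [hL]
    exact Nat.lt_floor_add_one _
  have hL4 : (0 : ℝ) < L := by linarith
  let D' : {D // D ∈ 𝒟} → Set (Fin M → V) := fun i => {f | f ∈ i.1 ∧ Injective f}
  have hD' : ∀ i, 3 * ξ / 4 * (Fintype.card V : ℝ) ^ M ≤ (D' i).ncard := by
    intro i
    rw [← hn]
    have c1 := hD i.1 i.2
    have c2 : i.1.card ≤ (D' i).ncard + {f : Fin M → V | ¬ (Injective f ∧ ∀ j, f j ∉ (∅ : Finset V))}.ncard := by
      rw [← Set.ncard_coe_finset]
      refine le_trans (Set.ncard_le_ncard ?_ (Set.toFinite _)) (Set.ncard_union_le _ _)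
      intro f hf
      by_cases h : Injective f
      · left
        exact ⟨hf, h⟩
      · right
        exact fun h' => h h'.1
    have c3 := ninj (ι := Fin M) (V := V) ∅
    rw [Fintype.card_fin, Finset.card_empty, Nat.mul_zero, Nat.add_zero, ← hn] at c3
    have c4 : (i.1.card : ℝ) ≤ (D' i).ncard + (M : ℝ) ^ 2 * (n : ℝ) ^ (M - 1) := by
      exact_mod_cast le_trans c2 (Nat.add_le_add_left c3 _)
    have c5 : (n : ℝ) ^ M = n * (n : ℝ) ^ (M - 1) := by
      rw [← pow_succ', Nat.sub_add_cancel hM]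
    have c6 : 0 ≤ (n : ℝ) ^ (M - 1) := by positivity
    have c7 : (M : ℝ) ^ 2 * (n : ℝ) ^ (M - 1) ≤ ξ / 4 * (n : ℝ) ^ M := by
      rw [c5]
      have := mul_le_mul_of_nonneg_right h3' c6
      nlinarith
    nlinarith
  obtain ⟨F, hF1, hF2, hF3, hF4⟩ := family_core' (L := L) hM (by exact_mod_cast hL4)
    (by rw [← hn]; exact h4) (3 * ξ / 4) (by positivity) D' hD' (by
      have c1 : (Fintype.card {D // D ∈ 𝒟} : ℝ) ≤ (n : ℝ) ^ e := by
        rw [Fintype.card_coe]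
        exact h𝒟
      have c2 : Real.exp (-(3 * ξ / 4 * L / 4)) ≤ Real.exp (-(3 * ξ / 4 * γ / 8 * n)) := by
        refine Real.exp_le_exp.2 ?_
        have : γ * n / 2 ≤ L := by linarith
        nlinarith
      exact le_trans (mul_le_mul c1 c2 (Real.exp_pos _).le (by positivity)) (hn₁ n h1)) (by
      rw [← hn]
      have c1 : 0 ≤ 64 * (M : ℝ) ^ 2 := by positivity
      have c2 := mul_le_mul_of_nonneg_left hL1 c1
      nlinarith)
  refine ⟨F, ?_, ?_, ?_, ?_⟩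
  · have : (F.card : ℝ) ≤ L := by exact_mod_cast hF1
    linarith
  · intro u hu
    obtain ⟨i, hi⟩ := hF2 u hu
    exact hi.2
  · intro u hu v hv huv
    rw [Set.disjoint_left]
    rintro x ⟨a, rfl⟩ ⟨b, hb⟩
    exact hF3 u hu v hv huv a b hb.symm
  · intro D hDm
    have c1 := hF4 ⟨D, hDm⟩
    have c2 : {f | f ∈ F ∧ f ∈ D' ⟨D, hDm⟩}.ncard ≤ (D ∩ F).card := by
      rw [← Set.ncard_coe_finset]
      refine Set.ncard_le_ncard ?_ (Set.toFinite _)
      rintro f ⟨hf1, hf2⟩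
      rw [Finset.coe_inter]
      exact ⟨hf2.1, hf1⟩
    have c3 : ({f | f ∈ F ∧ f ∈ D' ⟨D, hDm⟩}.ncard : ℝ) ≤ ((D ∩ F).card : ℝ) := by
      exact_mod_cast c2
    have c4 : 8 / 9 * (γ * n) ≤ L := by linarith
    have c5 := mul_le_mul_of_nonneg_left c4 hξ.le
    nlinarith

theorem ckq : CkqStmt := by
  intro r q ρ _ hρ V _ _ _ E hE
  have h := erdos r q V E ρ hρ.le hE
  rw [mul_comm q r]
  exact h

theorem erd : ErdStmt := by
  intro r t ρ hr ht hρ
  obtain ⟨n₁, hn₁⟩ := exists_nat_ge (2 * ((r * t : ℕ) : ℝ) ^ 2 / ρ ^ (t ^ r))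
  refine ⟨max n₁ 1, ?_⟩
  intro V _ _ hV E hE
  classical
  have hp : 0 < ρ ^ (t ^ r) := by positivity
  have h1 : 2 * ((r * t : ℕ) : ℝ) ^ 2 ≤ ρ ^ (t ^ r) * Fintype.card V := by
    have : 2 * ((r * t : ℕ) : ℝ) ^ 2 / ρ ^ (t ^ r) ≤ Fintype.card V :=
      le_trans hn₁ (by exact_mod_cast le_trans (le_max_left _ _) hV)
    rw [div_le_iff₀ hp] at this
    linarith
  have hn0 : (0 : ℝ) < Fintype.card V := by
    have : 1 ≤ Fintype.card V := le_trans (le_max_right _ _) hV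
    exact_mod_cast this
  have h2 := erdosInj r t hr ht V ∅ E ρ hρ.le hE (by
    rw [Finset.card_empty, Nat.cast_zero, mul_zero, add_zero]
    exact h1)
  have h3 : 0 < ρ ^ (t ^ r) / 2 * (Fintype.card V : ℝ) ^ (r * t) := by positivity
  have h4 := lt_of_lt_of_le h3 h2
  have h5 := Set.nonempty_of_ncard_ne_zero (by
    intro h
    rw [h] at h4
    simp at h4 : {x : Fin r → Fin t → V | (∀ s : Fin r → Fin t, (fun i => x i (s i)) ∈ E) ∧
        Injective (unc x) ∧ ∀ i j, x i j ∉ (∅ : Finset V)}.ncard ≠ 0)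
  obtain ⟨x, hx1, hx2, _⟩ := h5
  refine ⟨fun i => univ.image (x i), ?_, ?_, ?_⟩
  · intro i
    rw [Finset.card_image_of_injective, Finset.card_univ, Fintype.card_fin]
    intro a b hab
    have : ((i, a) : Fin r × Fin t) = (i, b) := hx2 hab
    exact congrArg Prod.snd this
  · intro i j hij
    rw [Finset.disjoint_left]
    intro v hv hv'
    obtain ⟨a, _, rfl⟩ := Finset.mem_image.1 hv
    obtain ⟨b, _, hb⟩ := Finset.mem_image.1 hv'
    have : ((j, b) : Fin r × Fin t) = (i, a) := hx2 hb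
    exact hij (congrArg Prod.fst this).symm
  · intro y hy
    have h6 : ∀ i, ∃ a, x i a = y i := by
      intro i
      obtain ⟨a, _, ha⟩ := Finset.mem_image.1 (hy i)
      exact ⟨a, ha⟩
    choose s hs using h6
    have h7 : (fun i => x i (s i)) = y := funext hs
    rw [← h7]
    exact hx1 s

end Pool.Agent.KK.H74
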